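import Pool.Agent.Q15.JT.Tri

/-!
# Representations congruent to the identity: a first order criterion

Let `p` be an odd prime and `K` a number field with exactly one normal extension of degree `p`
unramified outside `p`. The theorem says that the representations of `G_K` of dimension `n < p` which
are unramified outside `S` and `p` and congruent to the identity are triangular as soon as this is so
to the first order: the additive families of matrices over fields of characteristic `p` satisfying the
linearized tame relations have common eigenvectors (`FirstOrder`). No condition is imposed at `p`.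
-/

set_option autoImplicit false

namespace Pool.Agent.Results.MP_b583a4_nt.CongruentFirstOrder

open NumberField Matrix Pool.Agent.Q15.JT.Tri

/-- **Theorem.** Let `p` be an odd prime and `n < p`.

(1) Let `K` be a number field with exactly one normal extension of degree `p` unramified outside `p`,
with character `ψ`, and let `S` be a set of primes of `K` not above `p`, such that `p ^ s` exactly
divides `N(v) - 1` and `ψ` takes the value `(N(v) - 1) / p ^ s` at the Frobenius elements at `v`, for
all `v ∈ S` with `N(v) = 1` modulo `p`. If `FirstOrder p s n S` holds, then every continuous
representation of `G_K` of dimension `n` over an algebraically closed ultrametric extension of `ℚ_p`,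
which is unramified outside `S` and `p` and congruent to the identity modulo `p ^ s`, is triangular,
with diagonal characters unramified outside `p`.

(2) For `K = ℚ`, `s = 1` and a finite set `S` of primes `l ≠ p`, the only assumptions are that `p ^ 2`
does not divide `l - 1` for `l ∈ S` and `FirstOrder`. -/
theorem result (p : ℕ) [Fact p.Prime] (hp : p ≠ 2) (n : ℕ) (hn : n < p) :
    (∀ (K : Type) [Field K] [NumberField K], ∀ s ≠ 0, ∀ S : Set (Ideal (𝓞 K)),
      (∀ v ∈ S, (p : 𝓞 K) ∉ v) → ∀ ψ : AbsGal K →* Multiplicative (ZMod p), OneExtension p ψ →
      NormValues p s S ψ → FirstOrder p s n S → AllTriangular p s n S) ∧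
    (∀ S : Finset ℕ, (∀ l ∈ S, l.Prime ∧ l ≠ p ∧ ¬ p ^ 2 ∣ l - 1) →
      FirstOrder p 1 n (primeIdeals S) → AllTriangular p 1 n (primeIdeals S)) :=
  ⟨fun K _ _ s hs S hS ψ h hN hc => number_fields p s hp hs S hS ψ h hN n hn (Or.inr (Or.inr hc)),
    fun S hS hc => rationals p hp S hS n hn (Or.inr hc)⟩

end Pool.Agent.Results.MP_b583a4_nt.CongruentFirstOrder
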