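import Pool.Agent.Q15.JT.Tri

/-!
# Representations congruent to the identity and power residues

Let `p` be an odd prime and `S` a finite set of primes `l ≠ p` with `p ^ 2` not dividing `l - 1`. If
the quotient of `i ^ ((k - 1) / p)` by `k ^ ((i - 1) / p)` is a `p`-th power modulo `j` for any three
different `i`, `j`, `k` in `S` which are `1` modulo `p`, then the representations of the absolute Galois
group of `ℚ` of dimension less than `p`, unramified outside `S` and `p`, which are congruent to the
identity modulo `p`, are triangular; no condition is imposed at `p`. Over number fields the same holds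
if the Frobenius classes lie on one line up to inertia (`HasAxis`).
-/

set_option autoImplicit false

namespace Pool.Agent.Results.MP_b583a4_nt.CongruentPowerResidues

open NumberField Matrix Pool.Agent.Q15.JT.Tri

/-- **Theorem.** Let `p` be an odd prime and `n < p`.

(1) Let `S` be a finite set of primes `l ≠ p` such that `p ^ 2` does not divide `l - 1`, and let
`PowerCondition p S` hold. Then every continuous representation of `G_ℚ` of dimension `n` over an
algebraically closed ultrametric extension of `ℚ_p`, which is unramified outside `S` and `p` and
congruent to the identity modulo `p`, is triangular, with diagonal characters unramified outside `p`.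

(2) The same holds for representations congruent to the identity modulo `p ^ s` of the absolute Galois
group of a number field `K` with exactly one normal extension of degree `p` unramified outside `p`, if
`NormValues` and `HasAxis` hold for the set `S` of primes of `K`. -/
theorem result (p : ℕ) [Fact p.Prime] (hp : p ≠ 2) (n : ℕ) (hn : n < p) :
    (∀ S : Finset ℕ, (∀ l ∈ S, l.Prime ∧ l ≠ p ∧ ¬ p ^ 2 ∣ l - 1) → PowerCondition p S →
      AllTriangular p 1 n (primeIdeals S)) ∧
    (∀ (K : Type) [Field K] [NumberField K], ∀ s ≠ 0, ∀ S : Set (Ideal (𝓞 K)),
      (∀ v ∈ S, (p : 𝓞 K) ∉ v) → ∀ ψ : AbsGal K →* Multiplicative (ZMod p), OneExtension p ψ →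
      NormValues p s S ψ → HasAxis p s S → AllTriangular p s n S) :=
  ⟨fun S hS hc => rationals p hp S hS n hn (Or.inl hc),
    fun K _ _ s hs S hS ψ h hN hc => number_fields p s hp hs S hS ψ h hN n hn (Or.inr (Or.inl hc))⟩

end Pool.Agent.Results.MP_b583a4_nt.CongruentPowerResidues
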