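import Pool.Agent.Q15.JT.Tri

/-!
# Representations congruent to the identity, ramified at two primes of norm one modulo p

Let `p` be an odd prime and `K` a number field with exactly one normal extension `K₁` of degree `p`
unramified outside `p` (for instance a totally real `p`-rational field; then `K₁` is cyclotomic). Let
`S` be a set of primes of `K` not above `p`, at most two of which have norm `1` modulo `p`. The theorem
says that the representations of `G_K` of dimension less than `p`, unramified outside `S` and `p`,
which are congruent to the identity, are triangular; no condition is imposed at `p`.
-/

set_option autoImplicit false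

namespace Pool.Agent.Results.MP_b583a4_nt.CongruentTwoPrimes

open NumberField Matrix Pool.Agent.Q15.JT.Tri

/-- **Theorem.** Let `p` be an odd prime, let `K` be a number field with exactly one normal extension of
degree `p` unramified outside `p`, with character `ψ`, and let `S` be a set of primes of `K` not above
`p`, at most two of which have norm `1` modulo `p`. Suppose that `p ^ s` exactly divides `N(v) - 1` and
that `ψ` takes the value `(N(v) - 1) / p ^ s` at the Frobenius elements at `v`, for these `v ∈ S`. Let
`n < p`. Then every continuous representation of `G_K` of dimension `n` over an algebraically closed
ultrametric extension of `ℚ_p`, which is unramified outside `S` and `p` and congruent to the identity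
modulo `p ^ s`, is triangular, with diagonal characters unramified outside `p`. -/
theorem result (K : Type) [Field K] [NumberField K] (p s : ℕ) [Fact p.Prime] (hp : p ≠ 2)
    (hs : s ≠ 0) (S : Set (Ideal (𝓞 K))) (hS : ∀ v ∈ S, (p : 𝓞 K) ∉ v)
    (ψ : AbsGal K →* Multiplicative (ZMod p)) (hψ : OneExtension p ψ) (hN : NormValues p s S ψ)
    (htwo : AtMostTwo p S) (n : ℕ) (hn : n < p) : AllTriangular p s n S :=
  number_fields p s hp hs S hS ψ hψ hN n hn (Or.inl htwo)

end Pool.Agent.Results.MP_b583a4_nt.CongruentTwoPrimes
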