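import Pool.Agent.Q15.DC.A10

/-!
# Representations whose reduction is a sum of distinct irreducible representations

Let `p` be an odd prime, `K` a number field, `O` the ring of integers of an algebraically closed
ultrametric extension `E` of `ℚ_p`, with residue field `κ`, and let `ρ : G_K → GL_n(O)` be a continuous
representation. Let `N` be an open normal subgroup of `G_K` of index prime to `p` such that `ρ` is
congruent to the identity modulo `p ^ s` on `N`. Then the reduction `ρ'` of `ρ` is semisimple; we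
suppose that it is a sum of fewer than `p` pairwise non isomorphic irreducible representations, and
that the only classes in `H¹(G_K, ad ρ')` unramified outside `p` are the obvious ones: products of a
fixed character `ψ : G_K → ℤ/p` and of scalars on the constituents. The representation `ρ` may be
ramified at `p` (no condition is imposed there), and its restriction to `N` may be ramified at a set
`S` of further primes `v`, such that either the twist of `ad ρ'` by the cyclotomic character has no
invariants at `v`, or `N(v) ^ (p - 1) - 1` is divisible by `p ^ s` and not more, in a way which is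
compatible with `ψ`, and the centralizer of the Frobenius element in the algebra of matrices is small.

The theorem: `E ^ n` has a filtration by stable subspaces whose length is the number of constituents of
the reduction, and `N` acts by scalars on the successive quotients. In particular, if `ρ` is
irreducible over `E` then its projective image is finite.

In the second part, `K` is the field of rational numbers, and the reduction is a sum of distinct
characters; then `ρ` has a complete flag of stable subspaces.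
-/

set_option autoImplicit false

namespace Pool.Agent.Results.MP_b583a4_nt.DistinctConstituents

open NumberField Matrix

/-- the absolute Galois group of the field `K`, with the Krull topology -/
abbrev AbsGal (K : Type) [Field K] : Type := Gal(AlgebraicClosure K/K)

/-- the ring of all algebraic integers -/
abbrev ZBar (K : Type) [Field K] : Type := 𝓞 (AlgebraicClosure K)

/-- the ring of integers of the ultrametric field `E` -/
noncomputable abbrev IntRing (E : Type) [NormedField E] [IsUltrametricDist E] :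
    ValuationSubring E :=
  (NormedField.valuation (K := E)).valuationSubring

/-- the residue field of `E` -/
abbrev ResField (E : Type) [NormedField E] [IsUltrametricDist E] : Type :=
  IsLocalRing.ResidueField (IntRing E)

section

variable {K : Type} [Field K] [NumberField K]

/-- `τ` lies in the inertia group at the prime ideal `P` of the ring of all algebraic integers -/
def InInertia (P : Ideal (ZBar K)) (τ : AbsGal K) : Prop := ∀ x : ZBar K, τ • x - x ∈ P

/-- the prime of `K` below `P` -/
noncomputable def below (P : Ideal (ZBar K)) : Ideal (𝓞 K) :=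
  P.comap (algebraMap (𝓞 K) (ZBar K))

/-- `σ` is a Frobenius element at `P`: it acts on the residue field as `x ↦ x ^ N(v)`, where `v` is
the prime of `K` below `P` -/
def IsFrobenius (P : Ideal (ZBar K)) (σ : AbsGal K) : Prop :=
  ∀ x : ZBar K, σ • x - x ^ Ideal.absNorm (below P) ∈ P

section rep

variable {E : Type} [NormedField E] [IsUltrametricDist E] {n : ℕ}

/-- the reduction of `ρ` -/
noncomputable def reduction (ρ : AbsGal K →* GL (Fin n) (IntRing E)) (g : AbsGal K) :
    Matrix (Fin n) (Fin n) (ResField E) :=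
  (ρ g : Matrix (Fin n) (Fin n) (IntRing E)).map (IsLocalRing.residue (IntRing E))

/-- the matrix of `ρ g`, with entries in `E` -/
noncomputable def mat (ρ : AbsGal K →* GL (Fin n) (IntRing E)) (g : AbsGal K) :
    Matrix (Fin n) (Fin n) E :=
  (ρ g : Matrix (Fin n) (Fin n) (IntRing E)).map (algebraMap (IntRing E) E)

/-- `N` is an open normal subgroup of index prime to `p`, and the matrices `ρ x` with `x ∈ N` are
congruent to the identity modulo `p ^ s` -/
structure CongruentOn (p s : ℕ) (N : Subgroup (AbsGal K))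
    (ρ : AbsGal K →* GL (Fin n) (IntRing E)) : Prop where
  normal : N.Normal
  isOpen : IsOpen (N : Set (AbsGal K))
  index : ¬ p ∣ N.index
  congruent : ∀ x ∈ N, ∀ i j, ‖(mat ρ x - 1) i j‖ ≤ ‖(p : E) ^ s‖

/-- the restriction of `ρ` to `N` is unramified outside `S` and `p` -/
def UnramifiedOn (p : ℕ) (S : Set (Ideal (𝓞 K))) (N : Subgroup (AbsGal K))
    (ρ : AbsGal K →* GL (Fin n) (IntRing E)) : Prop :=
  ∀ P : Ideal (ZBar K), P.IsMaximal → below P ∉ S → (p : ZBar K) ∉ P →
    ∀ τ ∈ N, InInertia P τ → ρ τ = 1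

/-- a subspace which is stable under `ρ` -/
def Stable (ρ : AbsGal K →* GL (Fin n) (IntRing E)) (W : Submodule E (Fin n → E)) : Prop :=
  ∀ g, ∀ w ∈ W, mat ρ g *ᵥ w ∈ W

/-- there is a chain `0 = W₀ < W₁ < ... < Wₘ = E ^ n` of stable subspaces -/
def HasChain (ρ : AbsGal K →* GL (Fin n) (IntRing E)) (m : ℕ) : Prop :=
  ∃ W : ℕ → Submodule E (Fin n → E), W 0 = ⊥ ∧ W m = ⊤ ∧ (∀ j < m, W j < W (j + 1)) ∧
    ∀ j, Stable ρ (W j)

/-- there is a chain `0 = W₀ < W₁ < ... < Wₘ = E ^ n` of stable subspaces, and the elements of `N` act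
on the successive quotients by scalars -/
def HasScalarChain (N : Subgroup (AbsGal K)) (ρ : AbsGal K →* GL (Fin n) (IntRing E)) (m : ℕ) :
    Prop :=
  ∃ W : ℕ → Submodule E (Fin n → E), W 0 = ⊥ ∧ W m = ⊤ ∧ (∀ j < m, W j < W (j + 1)) ∧
    (∀ j, Stable ρ (W j)) ∧
    ∀ j < m, ∀ x ∈ N, ∃ c : E, ∀ w ∈ W (j + 1), mat ρ x *ᵥ w - c • w ∈ W j

/-- `ρ` is irreducible over `E` -/
def Irreducible (ρ : AbsGal K →* GL (Fin n) (IntRing E)) : Prop :=
  ∀ W : Submodule E (Fin n → E), Stable ρ W → W = ⊥ ∨ W = ⊤

end rep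

section residual

variable {κ : Type} [Field κ] {n : ℕ} {ι : Type}

/-- The `P i` are orthogonal projections with sum `1`, and the commutant of `r` is their span. So (`r`
being semisimple, over an algebraically closed field) the images of the `P i` are the irreducible
constituents of `r`, and they are pairwise non isomorphic. -/
structure Constituents [Fintype ι] (r : AbsGal K → Matrix (Fin n) (Fin n) κ)
    (P : ι → Matrix (Fin n) (Fin n) κ) : Prop where
  ne_zero : ∀ i, P i ≠ 0
  idempotent : ∀ i, P i * P i = P i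
  orthogonal : ∀ i j, i ≠ j → P i * P j = 0
  sum_eq_one : ∑ i, P i = 1
  commute : ∀ i g, P i * r g = r g * P i
  commutant : ∀ X, (∀ g, X * r g = r g * X) → ∃ c : ι → κ, X = ∑ i, c i • P i

/-- the restriction of `f` to `N` is a continuous homomorphism from `N` to the (discrete) additive
group `A`, unramified outside `p` -/
structure AdditiveOn (p : ℕ) (N : Subgroup (AbsGal K)) {A : Type} [AddCommGroup A]
    (f : AbsGal K → A) : Prop where
  add : ∀ x ∈ N, ∀ y ∈ N, f (x * y) = f x + f y
  isOpen : IsOpen {x | x ∈ N ∧ f x = 0}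
  unramified : ∀ P : Ideal (ZBar K), P.IsMaximal → (p : ZBar K) ∉ P →
    ∀ τ ∈ N, InInertia P τ → f τ = 0

/-- every continuous homomorphism `f` from `N` to the additive group of matrices over `κ`, unramified
outside `p`, with `f (g x g⁻¹) = r g * f x * r g⁻¹`, is given by `x ↦ ψ x • ∑ i, c i • P i` -/
def ClassCondition (p : ℕ) (N : Subgroup (AbsGal K)) (ψ : AbsGal K →* Multiplicative (ZMod p))
    [Fintype ι] (r : AbsGal K → Matrix (Fin n) (Fin n) κ)
    (P : ι → Matrix (Fin n) (Fin n) κ) : Prop :=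
  ∀ f : AbsGal K → Matrix (Fin n) (Fin n) κ, AdditiveOn p N f →
    (∀ g, ∀ x ∈ N, f (g * x * g⁻¹) = r g * f x * r g⁻¹) →
    ∃ c : ι → κ, ∀ x ∈ N, f x = ((Multiplicative.toAdd (ψ x)).val : κ) • ∑ i, c i • P i

/-- `q ^ (p - 1) = 1 + p ^ s * a` where `p` does not divide `a`, and `ψ σ = - a` modulo `p` (for
instance, `ψ` is given by the action on the roots of unity of order `p ^ (s + 1)`, `q` is the norm of
the prime, and `K(ζ_p)` contains the roots of unity of order `p ^ s`) -/
def ExactNorm (p s : ℕ) (ψ : AbsGal K →* Multiplicative (ZMod p)) (σ : AbsGal K) (q : ℕ) : Prop :=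
  ∃ a : ℕ, q ^ (p - 1) = 1 + p ^ s * a ∧ Multiplicative.toAdd (ψ σ) = -(a : ZMod p) ∧ ¬ p ∣ a

/-- the condition on a Frobenius element `σ` and the order `q` of the residue field: either there is
no matrix `X ≠ 0` with `r σ * X = q • X * r σ`, or the norm is exact and moreover
* the matrices which commute with `r σ` commute with the projections `P i`, and the matrices with
  `r σ * X = q • X * r σ` have no diagonal blocks, or
* `q = 1` in `κ` and the matrices which commute with `r σ` commute with each other -/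
def LocalCondition (p s : ℕ) (ψ : AbsGal K →* Multiplicative (ZMod p))
    (r : AbsGal K → Matrix (Fin n) (Fin n) κ) (P : ι → Matrix (Fin n) (Fin n) κ) (σ : AbsGal K)
    (q : ℕ) : Prop :=
  (∀ X, r σ * X = (q : κ) • (X * r σ) → X = 0) ∨
  (ExactNorm p s ψ σ q ∧
    (((∀ X, r σ * X = X * r σ → ∀ i, P i * X = X * P i) ∧
      (∀ X, r σ * X = (q : κ) • (X * r σ) → ∀ i, P i * X * P i = 0)) ∨
     ((q : κ) = 1 ∧ ∀ X Y, r σ * X = X * r σ → r σ * Y = Y * r σ → X * Y = Y * X)))

/-- `r` is the sum of the characters `χ i`, which are distinct -/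
structure DistinctCharacters (r : AbsGal K → Matrix (Fin n) (Fin n) κ)
    (χ : Fin n → AbsGal K → κ) : Prop where
  diagonal : ∀ g, r g = Matrix.diagonal fun i => χ i g
  distinct : ∀ i j, i ≠ j → ∃ g, χ i g ≠ χ j g

/-- for `i ≠ j` there is no nonzero continuous homomorphism `f` from `N` to the additive group of `κ`,
unramified outside `p`, with `f (g x g⁻¹) = χ_i(g) χ_j(g)⁻¹ f x` -/
def NoClasses (p : ℕ) (N : Subgroup (AbsGal K)) (χ : Fin n → AbsGal K → κ) : Prop :=
  ∀ i j, i ≠ j → ∀ f : AbsGal K → κ, AdditiveOn p N f →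
    (∀ g, ∀ x ∈ N, f (g * x * g⁻¹) = χ i g * (χ j g)⁻¹ * f x) → ∀ x ∈ N, f x = 0

end residual

/-- the hypotheses of the first part: `N` is open, normal and of index prime to `p`, `ρ` is continuous,
congruent to the identity modulo `p ^ s` on `N`, its restriction to `N` is unramified outside `p` and
the set `S` of primes not above `p`, its reduction is a sum of fewer than `p` pairwise non isomorphic
irreducible representations, with projections `P i`, and the class condition and the local conditions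
at the primes in `S` hold -/
structure Hypotheses {E : Type} [NormedField E] [IsUltrametricDist E] {n : ℕ} {ι : Type}
    [Fintype ι] (p s : ℕ) (ρ : AbsGal K →* GL (Fin n) (IntRing E)) (N : Subgroup (AbsGal K))
    (S : Set (Ideal (𝓞 K))) (ψ : AbsGal K →* Multiplicative (ZMod p))
    (P : ι → Matrix (Fin n) (Fin n) (ResField E)) : Prop where
  continuous : Continuous ρ
  congruent : CongruentOn p s N ρ
  tame : ∀ v ∈ S, (p : 𝓞 K) ∉ v
  unramified : UnramifiedOn p S N ρ
  card_lt : Fintype.card ι < p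
  constituents : Constituents (reduction ρ) P
  classes : ClassCondition p N ψ (reduction ρ) P
  local_conditions : ∀ Q : Ideal (ZBar K), Q.IsMaximal → below Q ∈ S → ∃ σ, IsFrobenius Q σ ∧
    LocalCondition p s ψ (reduction ρ) P σ (Ideal.absNorm (below Q))

end

/-- the prime ideals of `ℤ` generated by the numbers in `S` -/
def primeIdeals (S : Set ℕ) : Set (Ideal (𝓞 ℚ)) := {v | ∃ l ∈ S, v = Ideal.span {(l : 𝓞 ℚ)}}

/-- the hypotheses of the second part: `N` is open, normal and of index prime to `p`, `ρ` is continuous,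
congruent to the identity modulo `p` on `N`, its restriction to `N` is unramified outside `p` and the
set `S` of prime numbers different from `p`, its reduction is the sum of the distinct characters `χ i`,
without classes for `χ_i / χ_j`, and for `l ∈ S` there are Frobenius elements `σ` at the primes above
`l` such that either `χ_i(σ) ≠ l χ_j(σ)` for all `i`, `j`, or `p ^ 2` does not divide
`l ^ (p - 1) - 1` and the `χ_i(σ)` are distinct -/
structure RationalHypotheses {E : Type} [NormedField E] [IsUltrametricDist E] {n : ℕ}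
    (p : ℕ) (ρ : AbsGal ℚ →* GL (Fin n) (IntRing E)) (N : Subgroup (AbsGal ℚ))
    (S : Set ℕ) (χ : Fin n → AbsGal ℚ → ResField E) : Prop where
  dimension : n < p
  continuous : Continuous ρ
  congruent : CongruentOn p 1 N ρ
  primes : ∀ l ∈ S, l.Prime ∧ l ≠ p
  unramified : UnramifiedOn p (primeIdeals S) N ρ
  characters : DistinctCharacters (reduction ρ) χ
  classes : NoClasses p N χ
  local_conditions : ∀ l ∈ S, ∀ Q : Ideal (ZBar ℚ), Q.IsMaximal → (l : ZBar ℚ) ∈ Q →
    ∃ σ, IsFrobenius Q σ ∧ ((∀ i j, χ i σ ≠ l * χ j σ) ∨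
      (¬ p ^ 2 ∣ l ^ (p - 1) - 1 ∧ ∀ i j, i ≠ j → χ i σ ≠ χ j σ))

section

open Pool.Agent.Q15.JT Pool.Agent.Q15.DC

variable {K : Type} [Field K] [NumberField K]
  {E : Type} [NormedField E] [IsUltrametricDist E] {n : ℕ}

theorem cts_of {ρ : AbsGal K →* GL (Fin n) (IntRing E)} (hρ : Continuous ρ) :
    Cts fun g => (ρ g : Matrix (Fin n) (Fin n) (OI E)) := fun i j =>
  continuous_subtype_val.comp ((Units.continuous_val.comp hρ).matrix_elem i j)

theorem sub_map (M : Matrix (Fin n) (Fin n) (IntRing E)) (i j : Fin n) :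
    (M.map (algebraMap (IntRing E) E) - 1) i j = (((M - 1) i j : IntRing E) : E) := by
  rw [Matrix.sub_apply, Matrix.sub_apply, Matrix.map_apply]
  push_cast
  rw [Matrix.one_apply, Matrix.one_apply]
  congr 1
  split_ifs <;> simp

/-- irreducible representations with a scalar chain -/
theorem scalar_of_irreducible {N : Subgroup (AbsGal K)} {ρ : AbsGal K →* GL (Fin n) (IntRing E)}
    {m : ℕ} (h : HasScalarChain N ρ m) (hirr : Irreducible ρ) :
    ∀ x ∈ N, ∃ c : E, mat ρ x = c • (1 : Matrix (Fin n) (Fin n) E) := by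
  intro x hx
  obtain ⟨W, h0, hm, hlt, hst, hsc⟩ := h
  rcases Nat.eq_zero_or_pos m with hm0 | hm0
  · subst hm0
    refine ⟨1, ?_⟩
    rw [h0] at hm
    apply Matrix.ext_of_mulVec_single
    intro j
    have h1 : ∀ v : Fin n → E, v = 0 := fun v => by
      have h2 : v ∈ (⊤ : Submodule E (Fin n → E)) := trivial
      rw [← hm] at h2
      exact (Submodule.mem_bot E).1 h2
    rw [h1 (_ *ᵥ _), h1 (((1 : E) • (1 : Matrix (Fin n) (Fin n) E)) *ᵥ _)]
  · obtain ⟨c, hc⟩ := hsc 0 hm0 x hx
    refine ⟨c, ?_⟩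
    have h1 : W (0 + 1) = ⊤ := by
      rcases hirr _ (hst (0 + 1)) with h2 | h2
      · have h3 := hlt 0 hm0
        rw [h0, h2] at h3
        exact absurd h3 (lt_irrefl _)
      · exact h2
    apply Matrix.ext_of_mulVec_single
    intro j
    have h2 := hc (Pi.single j 1) (by rw [h1]; trivial)
    rw [h0, Submodule.mem_bot, sub_eq_zero] at h2
    rw [h2, Matrix.smul_mulVec, Matrix.one_mulVec]

theorem red_one_of {p s : ℕ} (hs : s ≠ 0) (hpE : ‖(p : E)‖ < 1) {N : Subgroup (AbsGal K)}
    {ρ : AbsGal K →* GL (Fin n) (IntRing E)} (hN : CongruentOn p s N ρ) :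
    ∀ x ∈ N, red (ρ x : Matrix (Fin n) (Fin n) (OI E)) = 1 := by
  intro x hx
  have h1 : ∀ i j, IsLocalRing.residue (OI E)
      (((ρ x : Matrix (Fin n) (Fin n) (OI E)) - 1) i j) = 0 := by
    intro i j
    rw [residue_OI, ← sub_map]
    refine (hN.congruent x hx i j).trans_lt ?_
    rw [norm_pow]
    exact pow_lt_one₀ (norm_nonneg _) hpE hs
  have h2 : red ((ρ x : Matrix (Fin n) (Fin n) (OI E)) - 1) = 0 := by
    ext i j
    exact h1 i j
  rw [red_sub, Pool.Agent.Q15.JT.red_one, sub_eq_zero] at h2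
  exact h2

theorem res_of {p s : ℕ} (hs : s ≠ 0) (hpE : ‖(p : E)‖ < 1) {N : Subgroup (AbsGal K)}
    {ρ : AbsGal K →* GL (Fin n) (IntRing E)} (hN : CongruentOn p s N ρ) {ι : Type} [Fintype ι]
    [DecidableEq ι]
    {P : ι → Matrix (Fin n) (Fin n) (ResField E)} (hP : Constituents (reduction ρ) P) :
    Res N (fun g => red (ρ g : Matrix (Fin n) (Fin n) (OI E))) P := by
  refine ⟨red_one_of hs hpE hN, fun g h => ?_, hP.ne_zero, hP.idempotent, hP.orthogonal,
    hP.sum_eq_one, hP.commute, hP.commutant⟩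
  rw [map_mul, Units.val_mul, red_mul]

theorem norms {p : ℕ} [hp : Fact p.Prime] [NormedAlgebra ℚ_[p] E] :
    ‖(p : E)‖ < 1 ∧ (p : E) ≠ 0 := by
  have hnorm : ‖(p : E)‖ = ‖(p : ℚ_[p])‖ := by
    have h1 := norm_algebraMap' E (p : ℚ_[p])
    rwa [map_natCast] at h1
  constructor
  · rw [hnorm]
    exact Padic.norm_p_lt_one
  · intro h0
    rw [h0, norm_zero] at hnorm
    have h1 : (p : ℚ_[p]) = 0 := norm_eq_zero.1 hnorm.symm
    exact hp.out.ne_zero (Nat.cast_eq_zero.1 h1)

/-- **number fields** -/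
theorem number_fields (p s : ℕ) [hp : Fact p.Prime] (hp2 : p ≠ 2) (hs : s ≠ 0)
    [NormedAlgebra ℚ_[p] E] [IsAlgClosed E] (ρ : AbsGal K →* GL (Fin n) (IntRing E))
    (hρ : Continuous ρ) (N : Subgroup (AbsGal K)) (hN : CongruentOn p s N ρ)
    (S : Set (Ideal (𝓞 K))) (hS : ∀ v ∈ S, (p : 𝓞 K) ∉ v) (hur : UnramifiedOn p S N ρ)
    (ψ : AbsGal K →* Multiplicative (ZMod p)) {ι : Type} [Fintype ι]
    (P : ι → Matrix (Fin n) (Fin n) (ResField E)) (hι : Fintype.card ι < p)
    (hP : Constituents (reduction ρ) P) (hC : ClassCondition p N ψ (reduction ρ) P)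
    (hL : ∀ Q : Ideal (ZBar K), Q.IsMaximal → below Q ∈ S → ∃ σ, IsFrobenius Q σ ∧
      LocalCondition p s ψ (reduction ρ) P σ (Ideal.absNorm (below Q))) :
    HasScalarChain N ρ (Fintype.card ι) := by
  classical
  have hN' := hN.normal
  obtain ⟨hpE, hpE0⟩ := norms (E := E) (p := p)
  obtain ⟨W, hW0, hWm, hWlt, hWst, hWsc⟩ := main1 (E := E) hp2 hs hpE0 hpE N hN.isOpen hN.index
    hS ψ (fun g => ((Multiplicative.toAdd (ψ g)).val : IsLocalRing.ResidueField (OI E)))
    (fun g m hm => by
      have hchar : CharP (IsLocalRing.ResidueField (OI E)) p := charP_res base hp.out hpE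
      show ((Multiplicative.toAdd (ψ g)).val : IsLocalRing.ResidueField (OI E)) = m
      rw [hm, ZMod.val_natCast, CharP.natCast_eq_natCast (IsLocalRing.ResidueField (OI E)) p]
      exact Nat.mod_modEq _ _) ρ (cts_of hρ)
    (fun x hx i j => by
      rw [← sub_map]
      exact hN.congruent x hx i j) (fun Q hQ hQS hpQ τ hτN hτ => hur Q hQ hQS hpQ τ hτN hτ)
    hι (res_of hs hpE hN hP) hL
    (fun f hadd hequi hopen hfur => hC f ⟨hadd, hopen, hfur⟩ hequi)
  exact ⟨W, hW0, hWm, hWlt, hWst, hWsc⟩

/-- **sums of distinct characters over the rational numbers** -/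
theorem rational (p : ℕ) [hp : Fact p.Prime] (hp2 : p ≠ 2)
    [NormedAlgebra ℚ_[p] E] [IsAlgClosed E] (hn : n < p) (ρ : AbsGal ℚ →* GL (Fin n) (IntRing E))
    (hρ : Continuous ρ) (N : Subgroup (AbsGal ℚ)) (hN : CongruentOn p 1 N ρ)
    (S : Set ℕ) (hS : ∀ l ∈ S, l.Prime ∧ l ≠ p) (hur : UnramifiedOn p (primeIdeals S) N ρ)
    (χ : Fin n → AbsGal ℚ → ResField E) (hχ : DistinctCharacters (reduction ρ) χ)
    (hC : NoClasses p N χ)
    (hL : ∀ l ∈ S, ∀ Q : Ideal (ZBar ℚ), Q.IsMaximal → (l : ZBar ℚ) ∈ Q → ∃ σ, IsFrobenius Q σ ∧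
      ((∀ i j, χ i σ ≠ l * χ j σ) ∨
       (¬ p ^ 2 ∣ l ^ (p - 1) - 1 ∧ ∀ i j, i ≠ j → χ i σ ≠ χ j σ))) :
    HasScalarChain N ρ n := by
  classical
  have hN' := hN.normal
  obtain ⟨hpE, hpE0⟩ := norms (E := E) (p := p)
  have hchar : CharP (IsLocalRing.ResidueField (OI E)) p := charP_res base hp.out hpE
  obtain ⟨ψ, hψ, hfr⟩ := exists_one' p hp2
  have hr1 := red_one_of one_ne_zero hpE hN
  have hmul : ∀ g h, red (ρ (g * h) : Matrix (Fin n) (Fin n) (OI E)) =
      red (ρ g : Matrix (Fin n) (Fin n) (OI E)) * red (ρ h : Matrix (Fin n) (Fin n) (OI E)) := by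
    intro g h
    rw [map_mul, Units.val_mul, red_mul]
  have hr : ∀ g, red (ρ g : Matrix (Fin n) (Fin n) (OI E)) = Matrix.diagonal fun i => χ i g :=
    hχ.diagonal
  have hχ1 : ∀ i g, χ i g * χ i g⁻¹ = 1 := by
    intro i g
    have h1 := hmul g g⁻¹
    rw [mul_inv_cancel, hr1 1 N.one_mem, hr, hr, Matrix.diagonal_mul_diagonal] at h1
    have h2 := congrFun (congrFun h1 i) i
    rw [Matrix.one_apply_eq, Matrix.diagonal_apply_eq] at h2
    exact h2.symm
  have hinv : ∀ i g, χ i g⁻¹ = (χ i g)⁻¹ := fun i g => eq_inv_of_mul_eq_one_right (hχ1 i g)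
  have hne : ∀ i g, χ i g ≠ 0 := fun i g => left_ne_zero_of_mul_eq_one (hχ1 i g)
  have hSS : ∀ v ∈ primeIdeals S, (p : 𝓞 ℚ) ∉ v := by
    rintro v ⟨l, hl, rfl⟩ h
    have h1 : Pool.Agent.W571.FM.pl p ≤ Pool.Agent.W571.FM.pl l := by
      rw [Pool.Agent.W571.FM.pl, Ideal.span_singleton_le_iff_mem]
      exact h
    have h2 := (Pool.Agent.W571.FM.pl_max hp.out).eq_of_le
      (Pool.Agent.W571.FM.pl_max (hS l hl).1).ne_top h1
    exact (hS l hl).2 (pl_inj h2).symm
  obtain ⟨W, hW⟩ := main1 (E := E) (s := 1) hp2 one_ne_zero hpE0 hpE N hN.isOpen hN.index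
    hSS ψ (fun g => ZMod.castHom (dvd_refl p) (IsLocalRing.ResidueField (OI E)) (Multiplicative.toAdd (ψ g)))
    (fun g m hm => by
      show ZMod.castHom (dvd_refl p) (IsLocalRing.ResidueField (OI E)) (Multiplicative.toAdd (ψ g)) = m
      rw [hm, map_natCast]) ρ (cts_of hρ)
    (fun x hx i j => by
      rw [← sub_map]
      exact hN.congruent x hx i j) (fun Q hQ hQS hpQ τ hτN hτ => hur Q hQ hQS hpQ τ hτN hτ)
    (ι := Fin n) (P := fun i => pr (IsLocalRing.ResidueField (OI E)) i) (by rwa [Fintype.card_fin])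
    (res_diag hr hr1 hmul hχ.distinct)
    (by
      rintro Q hQ ⟨l, hl, hQl⟩
      have hcm : Pool.Agent.W571.FM.cm Q = Pool.Agent.W571.FM.pl l := hQl
      have hlQ : (l : ZBar ℚ) ∈ Q := mem_of_cm (hS l hl).1 hQ hcm
      have hnorm : Ideal.absNorm (Pool.Agent.W571.FM.cm Q) = l := by
        rw [hcm, Pool.Agent.W571.FM.absNorm_pl]
      obtain ⟨σ, hσ, h⟩ := hL l hl Q hQ hlQ
      refine ⟨σ, hσ, ?_⟩
      rw [hnorm]
      have hσ' : Pool.Agent.W569.FM.FrobAt l Q σ := by
        have h1 : Pool.Agent.W569.FM.FrobAt (Ideal.absNorm (Pool.Agent.W571.FM.cm Q)) Q σ := hσ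
        rwa [hnorm] at h1
      refine loc_diag hr hne ?_
      rcases h with h | ⟨h1, h2⟩
      · exact Or.inl h
      · refine Or.inr ⟨?_, h2⟩
        obtain ⟨a, ha⟩ : p ∣ l ^ (p - 1) - 1 := by
          have h3 : l ^ (p - 1) ≡ 1 [MOD p] := by
            have h4 := Nat.ModEq.pow_totient ((Nat.coprime_primes (hS l hl).1 hp.out).2 (hS l hl).2)
            rwa [Nat.totient_prime hp.out] at h4
          exact (Nat.modEq_iff_dvd' (Nat.one_le_pow _ _ (hS l hl).1.pos)).1 h3.symm
        have ha' : l ^ (p - 1) = 1 + p * a := by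
          have h3 : 1 ≤ l ^ (p - 1) := Nat.one_le_pow _ _ (hS l hl).1.pos
          omega
        refine ⟨a, by rw [pow_one]; exact ha', ?_, fun h3 => h1 ?_⟩
        · rw [hfr l (hS l hl).1 (hS l hl).2 a ha' Q hQ hlQ σ hσ', toAdd_ofAdd]
        · rw [ha, pow_two]
          exact Nat.mul_dvd_mul_left p h3)
    (cls_diag hψ hN.isOpen hN.index hr hχ1 fun i j hij f hadd hequi hopen hfur =>
      hC i j hij f ⟨hadd, hopen, hfur⟩ fun g x hx => by rw [hequi g x hx, hinv])
  rw [Fintype.card_fin] at hW
  obtain ⟨hW0, hWm, hWlt, hWst, hWsc⟩ := hW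
  exact ⟨W, hW0, hWm, hWlt, hWst, hWsc⟩

end

/-- **Theorem.** Let `p` be an odd prime.

1. Let `ρ : G_K → GL_n(O)` be continuous, congruent to the identity modulo `p ^ s` on the open normal
subgroup `N` of index prime to `p`. If the reduction of `ρ` is the sum of fewer than `p` pairwise non
isomorphic irreducible representations, the class condition holds, and the local conditions hold at
the primes outside `p` at which the restriction of `ρ` to `N` is ramified, then there is a chain of
stable subspaces of `E ^ n`, as long as the number of constituents of the reduction, with `N` acting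
on the successive quotients by scalars. If `ρ` is irreducible then `N` acts by scalars.

2. Let `K = ℚ`, `n < p` and `s = 1`, and let the reduction be the sum of `n` distinct characters `χ i`
without classes for the quotients `χ i / χ j`. If the restriction of `ρ` to `N` is unramified outside
`p` and the primes `l ∈ S`, and for these either `χ_i(Frob_l) ≠ l χ_j(Frob_l)` for all `i`, `j`, or
`p ^ 2` does not divide `l ^ (p - 1) - 1` and the `χ_i(Frob_l)` are distinct, then `ρ` has a complete
flag of stable subspaces. -/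
theorem result :
    (∀ (K : Type) [Field K] [NumberField K] (p s : ℕ) [Fact p.Prime], p ≠ 2 → s ≠ 0 →
      ∀ (E : Type) [NormedField E] [NormedAlgebra ℚ_[p] E] [IsUltrametricDist E] [IsAlgClosed E]
        (n : ℕ) (ρ : AbsGal K →* GL (Fin n) (IntRing E)) (N : Subgroup (AbsGal K))
        (S : Set (Ideal (𝓞 K))) (ψ : AbsGal K →* Multiplicative (ZMod p)) (ι : Type) [Fintype ι]
        (P : ι → Matrix (Fin n) (Fin n) (ResField E)), Hypotheses p s ρ N S ψ P →
      HasScalarChain N ρ (Fintype.card ι) ∧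
        (Irreducible ρ → ∀ x ∈ N, ∃ c : E, mat ρ x = c • (1 : Matrix (Fin n) (Fin n) E))) ∧
    (∀ (p : ℕ) [Fact p.Prime], p ≠ 2 →
      ∀ (E : Type) [NormedField E] [NormedAlgebra ℚ_[p] E] [IsUltrametricDist E] [IsAlgClosed E]
        (n : ℕ) (ρ : AbsGal ℚ →* GL (Fin n) (IntRing E)) (N : Subgroup (AbsGal ℚ)) (S : Set ℕ)
        (χ : Fin n → AbsGal ℚ → ResField E), RationalHypotheses p ρ N S χ → HasChain ρ n) := by
  refine ⟨?_, ?_⟩
  · intro K _ _ p s hp hp2 hs E _ _ _ _ n ρ N S ψ ι _ P ⟨hρ, hN, hS, hur, hι, hP, hC, hL⟩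
    have h := number_fields p s hp2 hs ρ hρ N hN S hS hur ψ P hι hP hC hL
    exact ⟨h, scalar_of_irreducible h⟩
  · intro p hp hp2 E _ _ _ _ n ρ N S χ ⟨hn, hρ, hN, hS, hur, hχ, hC, hL⟩
    obtain ⟨W, h0, hm, hlt, hst, -⟩ := rational p hp2 hn ρ hρ N hN S hS hur χ hχ hC hL
    exact ⟨W, h0, hm, hlt, hst⟩

end Pool.Agent.Results.MP_b583a4_nt.DistinctConstituents
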